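import Pool.Agent.Y489.GE.Stm2

/-!
# GV-EXT: the extension lemma for maps of polyhedra
-/

set_option autoImplicit false

open Set Topology

noncomputable section

namespace Pool.Agent.Y523.GE

open Pool.Agent.Y489.GE

lemma cE_ge {Lam : ℝ} (h : 1 ≤ Lam) : ∀ k, 1 ≤ cE Lam k
  | 0 => le_rfl
  | k + 1 => by
    have h1 := cE_ge h k
    show 1 ≤ Lam * cE Lam k + 2
    nlinarith

lemma cE_step {Lam : ℝ} (h : 1 ≤ Lam) (k : ℕ) : cE Lam k ≤ cE Lam (k + 1) := by
  have h1 := cE_ge h k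
  show cE Lam k ≤ Lam * cE Lam k + 2
  nlinarith

lemma cE_mono {Lam : ℝ} (h : 1 ≤ Lam) {j k : ℕ} (hjk : j ≤ k) : cE Lam j ≤ cE Lam k :=
  monotone_nat_of_le_succ (cE_step h) hjk

section

variable {W : Type} [Fintype W]

open Classical in
/-- the support -/
def supp (y : W → ℝ) : Finset W := Finset.univ.filter (fun w => y w ≠ 0)

lemma mem_supp {y : W → ℝ} {w : W} : w ∈ supp y ↔ y w ≠ 0 := by simp [supp]

lemma supp_sub {σ : Finset W} {y : W → ℝ} (hy : y ∈ Fac σ) : supp y ⊆ σ :=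
  fun w hw => hy.2.2 w (mem_supp.1 hw)

lemma fac_supp {σ : Finset W} {y : W → ℝ} (hy : y ∈ Fac σ) : y ∈ Fac (supp y) :=
  ⟨hy.1, hy.2.1, fun _ hw => mem_supp.2 hw⟩

lemma supp_nonempty {σ : Finset W} {y : W → ℝ} (hy : y ∈ Fac σ) : (supp y).Nonempty := by
  by_contra h
  rw [Finset.not_nonempty_iff_eq_empty] at h
  have h1 : ∀ w, y w = 0 := by
    intro w
    by_contra hw
    have h2 := mem_supp.2 hw
    rw [h] at h2
    simp at h2
  have h3 := hy.2.1
  simp [h1] at h3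

lemma fac_closed (σ : Finset W) : IsClosed (Fac σ) := by
  have h : Fac σ = {y : W → ℝ | ∀ w, 0 ≤ y w} ∩ ({y : W → ℝ | ∑ w, y w = 1} ∩
      {y : W → ℝ | ∀ w, w ∉ σ → y w = 0}) := by
    ext y
    constructor
    · intro hy
      refine ⟨hy.1, hy.2.1, fun w hw => ?_⟩
      by_contra h0
      exact hw (hy.2.2 w h0)
    · intro hy
      refine ⟨hy.1, hy.2.1, fun w hw => ?_⟩
      by_contra h0
      exact hw (hy.2.2 w h0)
  rw [h]
  refine IsClosed.inter ?_ (IsClosed.inter ?_ ?_)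
  · simp only [Set.ofPred_forall]
    exact isClosed_iInter fun w => isClosed_le continuous_const (continuous_apply w)
  · exact isClosed_eq (by fun_prop) continuous_const
  · simp only [Set.ofPred_forall]
    exact isClosed_iInter fun w => isClosed_iInter fun _ =>
      isClosed_eq (continuous_apply w) continuous_const

lemma bd_of_supp_ne {σ : Finset W} {y : W → ℝ} (hy : y ∈ Fac σ) (h : supp y ≠ σ) : y ∈ Bd σ := by
  refine ⟨hy, ?_⟩
  by_contra h1
  push Not at h1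
  exact h (Finset.Subset.antisymm (supp_sub hy) fun w hw => mem_supp.2 (h1 w hw))

lemma supp_ssub {σ : Finset W} {y : W → ℝ} (hy : y ∈ Bd σ) : supp y ⊂ σ := by
  obtain ⟨hy1, w, hw, h0⟩ := hy
  refine Finset.ssubset_iff_subset_ne.2 ⟨supp_sub hy1, fun h => ?_⟩
  rw [← h] at hw
  exact mem_supp.1 hw h0

/-- one simplex -/
lemma one_simplex (hC : S_CONE) (hB : S_BD) {X : Type} [MetricSpace X] {q : ℕ} {s₀ Lam : ℝ}
    (hLam : 1 ≤ Lam) (hLC : LC X q s₀ Lam) {F : Set (Finset W)} {x : W → X} {s : Finset W → ℝ}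
    (hF1 : ∀ σ ∈ F, σ.card ≤ q) (hF2 : ∀ σ ∈ F, ∀ τ, τ ⊆ σ → τ ∈ F)
    (hs1 : ∀ σ ∈ F, ∀ τ, τ ⊆ σ → s τ ≤ s σ) (hs2 : ∀ σ ∈ F, 0 < s σ)
    (hs3 : ∀ σ ∈ F, cE Lam q * s σ ≤ s₀) (hx : ∀ σ ∈ F, ∀ v ∈ σ, ∀ w ∈ σ, dist (x v) (x w) ≤ s σ)
    (k : ℕ) (g : (W → ℝ) → X) (hg : ContinuousOn g (Pool.Agent.Y489.GE.Poly {σ | σ ∈ F ∧ σ.card ≤ k}))
    (hgd : ∀ σ ∈ F, σ.card ≤ k → ∀ y ∈ Fac σ, supp y = σ → ∀ w ∈ σ,
      dist (x w) (g y) ≤ (cE Lam k - 1) * s σ)
    (S : Finset W) (hS : S ∈ F) (hSk : S.card = k + 1) :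
    ∃ G : (W → ℝ) → X, ContinuousOn G (Fac S) ∧ (∀ y ∈ Bd S, G y = g y) ∧
      ∀ y ∈ Fac S, ∀ w ∈ S, dist (x w) (G y) ≤ (cE Lam (k + 1) - 1) * s S := by
  have hc1 := cE_ge hLam k
  have hc2 : cE Lam (k + 1) = Lam * cE Lam k + 2 := rfl
  have hs := hs2 S hS
  by_cases hk : k = 0
  · subst hk
    obtain ⟨v, hv⟩ := Finset.card_eq_one.1 hSk
    refine ⟨fun _ => x v, continuousOn_const, ?_, ?_⟩
    · intro y hy
      exfalso
      have h1 := Finset.card_lt_card (supp_ssub hy)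
      have h2 := Finset.card_pos.2 (supp_nonempty hy.1)
      omega
    · intro y _ w hw
      rw [hv, Finset.mem_singleton] at hw
      rw [hw, dist_self]
      have : 0 ≤ cE Lam (0 + 1) - 1 := by rw [hc2]; nlinarith
      positivity
  · obtain ⟨w0, hw0⟩ : S.Nonempty := Finset.card_pos.1 (by omega)
    obtain ⟨hcomp, hcov⟩ := hB W S q (hF1 S hS)
    have hBP : ∀ y ∈ Bd S, y ∈ Pool.Agent.Y489.GE.Poly {σ | σ ∈ F ∧ σ.card ≤ k} := by
      intro y hy
      refine ⟨supp y, ⟨hF2 S hS _ (supp_ssub hy).subset, ?_⟩, fac_supp hy.1⟩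
      have h1 := Finset.card_lt_card (supp_ssub hy)
      omega
    have hf : Continuous (fun y : ↥(Bd S) => g y.1) :=
      hg.comp_continuous continuous_subtype_val fun y => hBP y.1 y.2
    have hd : ∀ y : ↥(Bd S), dist (x w0) (g y.1) ≤ cE Lam k * s S := by
      rintro ⟨y, hy⟩
      have h1 := Finset.card_lt_card (supp_ssub hy)
      have h2 := hF2 S hS _ (supp_ssub hy).subset
      obtain ⟨w', hw'⟩ := supp_nonempty hy.1
      have h3 := hgd (supp y) h2 (by omega) y (fac_supp hy.1) rfl w' hw'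
      have h4 := hx S hS w0 hw0 w' ((supp_ssub hy).subset hw')
      have h5 := hs1 S hS _ (supp_ssub hy).subset
      have h6 := dist_triangle (x w0) (x w') (g y)
      have h7 : (cE Lam k - 1) * s (supp y) ≤ (cE Lam k - 1) * s S :=
        mul_le_mul_of_nonneg_left h5 (by linarith)
      show dist (x w0) (g y) ≤ cE Lam k * s S
      linarith
    have hq : k + 1 ≤ q := hSk ▸ hF1 S hS
    have hs' : cE Lam k * s S ≤ s₀ :=
      (mul_le_mul_of_nonneg_right (cE_mono hLam (by omega)) hs.le).trans (hs3 S hS)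
    obtain ⟨H, hH1, hH2, hH3, hH4⟩ := hLC (x w0) (↥(Bd S)) hcov (fun y : ↥(Bd S) => g y.1) hf
      (cE Lam k * s S) (by positivity) hs' hd
    obtain ⟨G, hG1, hG2, hG3⟩ := hC X W S (by omega) (x w0) H hH1 hH2
    refine ⟨G, hG1, fun y hy => ?_, fun y hy w hw => ?_⟩
    · rw [hG2 ⟨y, hy⟩, hH3 ⟨y, hy⟩]
    · obtain ⟨y', u, hu, he⟩ := hG3 y hy
      have h1 := hH4 y' u hu
      rw [← he] at h1
      have h2 := hx S hS w hw w0 hw0
      have h3 := dist_triangle (x w) (x w0) (G y)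
      rw [hc2]
      linarith

end

/-- **The extension lemma.** -/
theorem t_EXT : S_CONE → S_BD → S_EXT := by
  intro hC hB X _ q s₀ Lam hLam hLC W _ F x s hF1 hF2 hs1 hs2 hs3 hx
  classical
  by_cases hX : Nonempty X
  swap
  · -- the polyhedron is empty
    have hW : ∀ w : W, False := fun w => hX ⟨x w⟩
    have hP : IsEmpty ↥(Pool.Agent.Y489.GE.Poly F) := by
      constructor
      rintro ⟨y, σ, _, hy⟩
      obtain ⟨w, _⟩ := supp_nonempty hy
      exact hW w
    exact ⟨⟨fun y => (hP.false y).elim, continuous_of_const fun y => (hP.false y).elim⟩,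
      fun _ _ y => (hP.false y).elim⟩
  have key : ∀ k : ℕ, ∃ g : (W → ℝ) → X, ContinuousOn g (Pool.Agent.Y489.GE.Poly {σ | σ ∈ F ∧ σ.card ≤ k}) ∧
      ∀ σ ∈ F, σ.card ≤ k → ∀ y ∈ Fac σ, supp y = σ → ∀ w ∈ σ,
        dist (x w) (g y) ≤ (cE Lam k - 1) * s σ := by
    intro k
    induction k with
    | zero =>
      obtain ⟨p⟩ := hX
      refine ⟨fun _ => p, continuousOn_const, ?_⟩
      intro σ _ hσ y _ _ w hw
      have h1 := Finset.card_pos.2 ⟨w, hw⟩
      omega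
    | succ k ih =>
      obtain ⟨g, hg, hgd⟩ := ih
      have h1 : ∀ S : Finset W, ∃ G : (W → ℝ) → X, S ∈ F → S.card = k + 1 →
          ContinuousOn G (Fac S) ∧ (∀ y ∈ Bd S, G y = g y) ∧
          ∀ y ∈ Fac S, ∀ w ∈ S, dist (x w) (G y) ≤ (cE Lam (k + 1) - 1) * s S := by
        intro S
        by_cases hS : S ∈ F ∧ S.card = k + 1
        · obtain ⟨G, hG⟩ := one_simplex hC hB hLam hLC hF1 hF2 hs1 hs2 hs3 hx k g hg hgd S hS.1 hS.2
          exact ⟨G, fun _ _ => hG⟩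
        · exact ⟨g, fun h2 h3 => (hS ⟨h2, h3⟩).elim⟩
      choose G hG using h1
      set g' : (W → ℝ) → X := fun y =>
        if supp y ∈ F ∧ (supp y).card = k + 1 then G (supp y) y else g y with hg'
      have hold : ∀ σ ∈ F, σ.card ≤ k → ∀ y ∈ Fac σ, g' y = g y := by
        intro σ _ hσ y hy
        have h2 := Finset.card_le_card (supp_sub hy)
        rw [hg']
        exact if_neg fun h3 => by omega
      have hnew : ∀ σ ∈ F, σ.card = k + 1 → ∀ y ∈ Fac σ, g' y = G σ y := by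
        intro σ hσ hσk y hy
        by_cases h2 : supp y = σ
        · rw [hg']
          show (if supp y ∈ F ∧ (supp y).card = k + 1 then G (supp y) y else g y) = G σ y
          rw [h2, if_pos ⟨hσ, hσk⟩]
        · have h3 := bd_of_supp_ne hy h2
          have h4 := Finset.card_lt_card (supp_ssub h3)
          rw [(hG σ hσ hσk).2.1 y h3, hg']
          exact if_neg fun h5 => by omega
      refine ⟨g', ?_, ?_⟩
      · have h2 : Pool.Agent.Y489.GE.Poly {σ | σ ∈ F ∧ σ.card ≤ k + 1} =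
            ⋃ i : {σ : Finset W // σ ∈ F ∧ σ.card ≤ k + 1}, Fac i.1 := by
          ext y
          simp only [mem_iUnion, Subtype.exists, exists_prop]
          exact Iff.rfl
        rw [h2]
        refine (locallyFinite_of_finite _).continuousOn_iUnion (fun i => fac_closed i.1) ?_
        rintro ⟨σ, hσ, hσk⟩
        rcases Nat.lt_or_ge k σ.card with h3 | h3
        · have h4 : σ.card = k + 1 := by omega
          exact (hG σ hσ h4).1.congr fun y hy => hnew σ hσ h4 y hy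
        · refine (hg.mono ?_).congr fun y hy => hold σ hσ h3 y hy
          intro y hy
          exact ⟨σ, ⟨hσ, h3⟩, hy⟩
      · intro σ hσ hσk y hy hsy w hw
        rcases Nat.lt_or_ge k σ.card with h3 | h3
        · have h4 : σ.card = k + 1 := by omega
          rw [hnew σ hσ h4 y hy]
          exact (hG σ hσ h4).2.2 y hy w hw
        · rw [hold σ hσ h3 y hy]
          refine (hgd σ hσ h3 y hy hsy w hw).trans ?_
          have h5 := cE_step hLam k
          exact mul_le_mul_of_nonneg_right (by linarith) (hs2 σ hσ).le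
  obtain ⟨g, hg, hgd⟩ := key q
  have hP : Pool.Agent.Y489.GE.Poly F ⊆ Pool.Agent.Y489.GE.Poly {σ | σ ∈ F ∧ σ.card ≤ q} := by
    rintro y ⟨σ, hσ, hy⟩
    exact ⟨σ, ⟨hσ, hF1 σ hσ⟩, hy⟩
  refine ⟨⟨fun y => g y.1, hg.comp_continuous continuous_subtype_val fun y => hP y.2⟩, ?_⟩
  intro σ hσ y hy w hw
  show dist (x w) (g y.1) ≤ cE Lam q * s σ
  obtain ⟨w', hw'⟩ := supp_nonempty hy
  have hτ := hF2 σ hσ _ (supp_sub hy)
  have h1 := hgd (supp y.1) hτ (hF1 _ hτ) y.1 (fac_supp hy) rfl w' hw'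
  have h2 := hx σ hσ w hw w' (supp_sub hy hw')
  have h3 := hs1 σ hσ _ (supp_sub hy)
  have h4 := dist_triangle (x w) (x w') (g y.1)
  have h5 := cE_ge hLam q
  have h6 : (cE Lam q - 1) * s (supp y.1) ≤ (cE Lam q - 1) * s σ :=
    mul_le_mul_of_nonneg_left h3 (by linarith)
  linarith

end Pool.Agent.Y523.GE
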